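import Pool.Agent.Helper74.DR.St

/-!
# Project DR (MP_26f0da_lc), module NFM
-/

set_option autoImplicit false

namespace Pool.Agent.Helper60.DR

open Pool.Agent.Helper74.DR

/-- The symbols as an image of a finite type. -/
def toSy {α V : Type} : α ⊕ V ⊕ (V × V) ⊕ (V × V) → Sy α V
  | .inl a => .t a
  | .inr (.inl X) => .n X
  | .inr (.inr (.inl p)) => .l p.1 p.2
  | .inr (.inr (.inr p)) => .r p.1 p.2

theorem toSy_surj {α V : Type} : Function.Surjective (toSy (α := α) (V := V)) := by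
  intro s
  cases s with
  | t a => exact ⟨.inl a, rfl⟩
  | n X => exact ⟨.inr (.inl X), rfl⟩
  | l X Y => exact ⟨.inr (.inr (.inl (X, Y))), rfl⟩
  | r X Y => exact ⟨.inr (.inr (.inr (X, Y))), rfl⟩

/-- Module NFM. -/
theorem hNFM (hBSF : StBSF) (hSYM : StSYM) (hMAC : StMAC) : StNFM := by
  intro α _ g
  obtain ⟨V, hV, L, S, hBS, hL⟩ := hBSF α g
  haveI : Finite V := hV
  have hfin : Finite (Sy α V) := Finite.of_surjective (toSy (α := α) (V := V)) toSy_surj
  refine ⟨Sy α V, hfin, Sy.rk, Rul Sy.rk (Ml L), Sy.n S, ?_, ?_⟩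
  · rintro a X γ ⟨h1, h2, _⟩
    exact ⟨h1, h2⟩
  · intro w hw
    have hne : ∀ X, [] ∉ Ml L X := by
      intro X h
      cases X with
      | t a =>
        have h' : ([] : List α) = [a] := h
        exact List.cons_ne_nil _ _ h'.symm
      | n X => exact hBS.1 X h
      | l X Y => exact h.1 rfl
      | r X Y => exact h.1 rfl
    have h := hMAC α (Sy α V) Sy.rk (Ml L) hne
      (fun a w X h => hSYM α V L hBS a w X h) [Sy.n S] w
    rw [hL w hw, ← h, cat_single]
    rfl

end Pool.Agent.Helper60.DR
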